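import Pool.Agent.Helper64.BKS.Stmts
import Pool.Agent.Helper57.REC.Stmts3

/-!
# ELM: make the indices of the cyclic subgroups larger
-/

set_option autoImplicit false

open NumberField
open scoped Classical

namespace BKS

open BKA (Gal Zb Pl q Over Congr)

namespace ELM53

/-- the index lemma -/
theorem index_lemma {G : Type} [Group G] (N N' : Subgroup G) [N.Normal] [N'.Normal] (hle : N' ≤ N)
    (hfin : N'.index ≠ 0) {ℓ : ℕ} (hℓ : ℓ.Prime) (hpow : ∀ σ ∈ N, σ ^ ℓ ∈ N')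
    (h2 : ℓ ^ 2 ∣ N'.relIndex N) (σ : G) :
    ℓ * (Subgroup.zpowers σ ⊔ N).index ∣ (Subgroup.zpowers σ ⊔ N').index := by
  set Z := Subgroup.zpowers σ with hZ
  have hHH : Z ⊔ N' ≤ Z ⊔ N := sup_le_sup_left hle Z
  have e1 : N'.relIndex N * N.relIndex (Z ⊔ N) = N'.relIndex (Z ⊔ N) :=
    Subgroup.relIndex_mul_relIndex _ _ _ hle le_sup_right
  have e2 : N'.relIndex (Z ⊔ N') * (Z ⊔ N').relIndex (Z ⊔ N) = N'.relIndex (Z ⊔ N) :=
    Subgroup.relIndex_mul_relIndex _ _ _ le_sup_right hHH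
  rw [Subgroup.relIndex_sup_right] at e1 e2
  have e3 : N'.relIndex (N ⊓ Z) * N.relIndex Z = N'.relIndex Z := by
    rw [Subgroup.relIndex_inf_mul_relIndex, inf_eq_left.mpr hle]
  have hN0 : N.index ≠ 0 := fun h0 => by
    have := Subgroup.relIndex_mul_index hle
    rw [h0, mul_zero] at this
    exact hfin this.symm
  have hNZ : N.relIndex Z ≠ 0 := by
    intro h0
    have := Subgroup.relIndex_dvd_index_of_normal N Z
    rw [h0, zero_dvd_iff] at this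
    exact hN0 this
  have e4 : N'.relIndex (N ⊓ Z) * (Z ⊔ N').relIndex (Z ⊔ N) = N'.relIndex N := by
    have : N.relIndex Z * (N'.relIndex (N ⊓ Z) * (Z ⊔ N').relIndex (Z ⊔ N)) =
        N.relIndex Z * N'.relIndex N := by
      rw [← mul_assoc, mul_comm (N.relIndex Z) (N'.relIndex (N ⊓ Z)), e3, e2, ← e1, mul_comm]
    exact Nat.eq_of_mul_eq_mul_left (Nat.pos_of_ne_zero hNZ) this
  have hd : N'.relIndex (N ⊓ Z) ∣ ℓ := by
    have hcyc : ∃ τ : G, Subgroup.zpowers τ = N ⊓ Z := by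
      have h1 : IsCyclic (N ⊓ Z : Subgroup G) := by
        have hinj : Function.Injective (Subgroup.inclusion (inf_le_right : N ⊓ Z ≤ Z)) :=
          Subgroup.inclusion_injective _
        exact isCyclic_of_injective _ hinj
      obtain ⟨t, ht⟩ := h1.exists_generator
      refine ⟨(t : G), ?_⟩
      ext x
      constructor
      · rintro ⟨k, rfl⟩
        exact Subgroup.zpow_mem _ t.2 k
      · intro hx
        obtain ⟨k, hk⟩ := ht ⟨x, hx⟩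
        exact ⟨k, by simpa using congrArg Subtype.val hk⟩
    obtain ⟨τ, hτ⟩ := hcyc
    have hτN : τ ∈ N := by
      have : τ ∈ N ⊓ Z := hτ ▸ Subgroup.mem_zpowers τ
      exact this.1
    have e5 : N'.relIndex (N ⊓ Z) = Nat.card ((N ⊓ Z).map (QuotientGroup.mk' N')) := by
      rw [← Subgroup.relIndex_ker, QuotientGroup.ker_mk']
    rw [e5, ← hτ, MonoidHom.map_zpowers, Nat.card_zpowers]
    refine orderOf_dvd_of_pow_eq_one ?_
    rw [← map_pow]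
    exact (QuotientGroup.eq_one_iff _).mpr (hpow τ hτN)
  have hdiv : ℓ ∣ (Z ⊔ N').relIndex (Z ⊔ N) := by
    rcases (Nat.dvd_prime hℓ).mp hd with h | h
    · rw [h, one_mul] at e4
      rw [e4]
      exact (Dvd.intro_left _ (by ring : ℓ * ℓ = ℓ ^ 2)).trans h2
    · rw [h] at e4
      rw [← e4, pow_two] at h2
      exact Nat.dvd_of_mul_dvd_mul_left hℓ.pos h2
  rw [← Subgroup.relIndex_mul_index hHH]
  exact Nat.mul_dvd_mul_right hdiv _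

/-- two independent characters of order `ℓ` -/
theorem sq_dvd {G : Type} [Group G] (N N' : Subgroup G) {ℓ : ℕ} (hℓ : ℓ.Prime)
    (χ₁ χ₂ : N →* Multiplicative (ZMod ℓ))
    (h1 : ∀ (σ : G) (h : σ ∈ N), σ ∈ N' → χ₁ ⟨σ, h⟩ = 1)
    (h2 : ∀ (σ : G) (h : σ ∈ N), σ ∈ N' → χ₂ ⟨σ, h⟩ = 1) (t₁ t₂ : N)
    (h11 : χ₁ t₁ ≠ 1) (h12 : χ₂ t₁ = 1) (h21 : χ₁ t₂ = 1) (h22 : χ₂ t₂ ≠ 1) :
    ℓ ^ 2 ∣ N'.relIndex N := by
  haveI : Fact ℓ.Prime := ⟨hℓ⟩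
  have hcard : Nat.card (Multiplicative (ZMod ℓ)) = ℓ := by
    rw [Nat.card_eq_fintype_card, Fintype.card_multiplicative, ZMod.card]
  have hsurj : Function.Surjective (χ₁.prod χ₂) := by
    rintro ⟨a, b⟩
    obtain ⟨i, hi⟩ := mem_zpowers_of_prime_card hcard h11 (g' := a)
    obtain ⟨j, hj⟩ := mem_zpowers_of_prime_card hcard h22 (g' := b)
    refine ⟨t₁ ^ i * t₂ ^ j, ?_⟩
    have hi' : (χ₁ t₁) ^ i = a := hi
    have hj' : (χ₂ t₂) ^ j = b := hj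
    refine Prod.ext ?_ ?_
    · change χ₁ (t₁ ^ i * t₂ ^ j) = a
      rw [map_mul, map_zpow, map_zpow, hi', h21, one_zpow, mul_one]
    · change χ₂ (t₁ ^ i * t₂ ^ j) = b
      rw [map_mul, map_zpow, map_zpow, hj', h12, one_zpow, one_mul]
  have hker : (χ₁.prod χ₂).ker.index = ℓ ^ 2 := by
    rw [Subgroup.index_ker, MonoidHom.range_eq_top.mpr hsurj, Subgroup.card_top, Nat.card_prod,
      hcard, pow_two]
  rw [← hker]
  refine Subgroup.index_dvd_of_le ?_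
  intro x hx
  rw [Subgroup.mem_subgroupOf] at hx
  rw [MonoidHom.mem_ker, MonoidHom.prod_apply]
  exact Prod.ext (h1 _ x.2 hx) (h2 _ x.2 hx)

variable {F : Type} [Field F] [NumberField F]

theorem over_iff (v : Pl F) (𝔓 : Ideal (Zb F)) : REC.OverP v 𝔓 ↔ Over v 𝔓 :=
  and_congr Iff.rfl ⟨fun h x y e => (h x y e).symm, fun h x y e => (h x y e).symm⟩

/-- elements which act by a power of Frobenius are in the decomposition group -/
theorem mem_dec_of_congr {𝔓 : Ideal (Zb F)} (hp : 𝔓.IsPrime) {m : ℕ} (hm : m ≠ 0) {σ : Gal F}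
    (h : MU.CongPow 𝔓 m σ) : σ ∈ Dec 𝔓 := by
  intro x y hxy
  have h1 := h x y hxy
  constructor
  · intro hx
    have h2 : x ^ m ∈ 𝔓 := Ideal.pow_mem_of_mem _ hx _ (Nat.pos_of_ne_zero hm)
    have e : y = (y - x ^ m) + x ^ m := by ring
    rw [e]
    exact 𝔓.add_mem h1 h2
  · intro hy
    have h2 : x ^ m ∈ 𝔓 := by
      have e : x ^ m = y - (y - x ^ m) := by ring
      rw [e]
      exact 𝔓.sub_mem hy h1
    exact hp.mem_of_pow_mem _ h2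

theorem finite_of_open {N : Subgroup (Gal F)} (h : IsOpen (N : Set (Gal F))) : N.index ≠ 0 := by
  have : Finite (Gal F ⧸ N) := Subgroup.quotient_finite_of_isOpen N h
  exact Subgroup.index_ne_zero_of_finite

theorem core_open {N : Subgroup (Gal F)} (h : IsOpen (N : Set (Gal F))) :
    IsOpen (N.normalCore : Set (Gal F)) := by
  have : N.FiniteIndex := ⟨finite_of_open h⟩
  exact Subgroup.isOpen_of_isClosed_of_finiteIndex _
    (N.normalCore_isClosed (Subgroup.isClosed_of_isOpen N h))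

/-- an element of a decomposition group at a place outside `B`, on which `χ` is not trivial -/
theorem exists_elt (hDN1 : REC.ST_DN1) (hOVP : REC.ST_OVP) {N : Subgroup (Gal F)}
    (hN : N.Normal) (hNo : IsOpen (N : Set (Gal F))) {ℓ : ℕ} (χ : N →* Multiplicative (ZMod ℓ))
    (hχ : Cont χ) (hχ1 : χ ≠ 1) (B : Finset (Pl F)) :
    ∃ (v : Pl F) (𝔓 : Ideal (Zb F)) (t : Gal F) (ht : t ∈ N), v ∉ B ∧ Over v 𝔓 ∧ t ∈ Dec 𝔓 ∧
      χ ⟨t, ht⟩ ≠ 1 := by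
  obtain ⟨M, hMo, hM⟩ := hχ
  set K : Subgroup (Gal F) := χ.ker.map N.subtype with hK
  have hmemK : ∀ (x : Gal F) (hx : x ∈ N), x ∈ K ↔ χ ⟨x, hx⟩ = 1 := by
    intro x hx
    rw [hK, Subgroup.mem_map]
    constructor
    · rintro ⟨y, hy, rfl⟩
      exact hy
    · intro h
      exact ⟨⟨x, hx⟩, h, rfl⟩
  have hKN : K ≤ N := by
    rintro x ⟨y, hy, rfl⟩
    exact y.2
  have hKo : IsOpen (K : Set (Gal F)) := by
    refine Subgroup.isOpen_mono (H₁ := N ⊓ M) ?_ ?_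
    · intro x hx
      exact (hmemK x hx.1).mpr (hM x hx.1 hx.2)
    · exact hNo.inter hMo
  have hYo := core_open hKo
  have hYN : K.normalCore ≤ N := (K.normalCore_le).trans hKN
  have hYne : K.normalCore ≠ N := by
    intro h
    refine hχ1 (MonoidHom.ext fun x => ?_)
    have hx : (x : Gal F) ∈ K := K.normalCore_le (h.ge x.2)
    exact (hmemK _ x.2).mp hx
  have h1 : ¬ ∀ v : Pl F, v ∉ B → REC.SplY N v → REC.SplY K.normalCore v := fun h =>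
    hYne (hDN1 F K.normalCore N K.normalCore_normal hN hYo hNo hYN B h)
  push Not at h1
  obtain ⟨v, hvB, ⟨𝔓, hov, hin, σ, hσN, hσ⟩, hnot⟩ := h1
  have h2 : ∃ t : Gal F, t ∈ N ∧ t ∈ Dec 𝔓 ∧ t ∉ K.normalCore := by
    by_contra hcon
    push Not at hcon
    refine hnot ⟨𝔓, hov, fun τ hτ => ?_, σ, ?_, hσ⟩
    · exact hcon τ (hin τ hτ) (mem_dec_of_congr hov.1 one_ne_zero hτ)
    · refine hcon σ hσN (mem_dec_of_congr hov.1 ?_ hσ)
      obtain ⟨-, -, -, h4, -⟩ := hOVP F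
      obtain ⟨p, f, hp, -, hq, -⟩ := h4 v 𝔓 hov
      rw [hq]
      exact pow_ne_zero _ hp.ne_zero
  obtain ⟨t, htN, htD, htY⟩ := h2
  have h3 : ∃ g : Gal F, g * t * g⁻¹ ∉ K := by
    by_contra hcon
    push Not at hcon
    exact htY hcon
  obtain ⟨g, hg⟩ := h3
  obtain ⟨𝔓', hTr⟩ := Tr.exists g 𝔓
  have hgN : g * t * g⁻¹ ∈ N := hN.conj_mem t htN g
  refine ⟨v, 𝔓', g * t * g⁻¹, hgN, hvB, hTr.over ((over_iff v 𝔓).mp hov), (hTr.dec t).mpr htD, ?_⟩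
  intro h
  exact hg ((hmemK _ hgN).mpr h)

end ELM53

open ELM53 in
/-- ELM -/
theorem st_ELM (hCYCX : ST_CYCX) (hDN1 : REC.ST_DN1) (hOVP : REC.ST_OVP) (hGL1 : ST_GL1)
    (hCOR : ST_COR) : ST_ELM := by
  intro F _ _ A N hN ℓ hℓ
  have := hN.normal
  obtain ⟨χ₀, hc, hne⟩ := hCYCX F N hN.isOpen ℓ hℓ
  obtain ⟨v₁, 𝔓₁, t₁, ht₁, hv₁, ho₁, hd₁, hx₁⟩ :=
    exists_elt hDN1 hOVP hN.normal hN.isOpen χ₀ hc hne A
  obtain ⟨v₂, 𝔓₂, t₂, ht₂, hv₂, ho₂, hd₂, hx₂⟩ :=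
    exists_elt hDN1 hOVP hN.normal hN.isOpen χ₀ hc hne (insert v₁ A)
  rw [Finset.mem_insert, not_or] at hv₂
  obtain ⟨-, -, -, -, huniq, -⟩ := hOVP F
  have huniq' : ∀ (v v' : Pl F) (𝔓 : Ideal (Zb F)), Over v 𝔓 → Over v' 𝔓 → v = v' :=
    fun v v' 𝔓 h h' => huniq v v' 𝔓 ((over_iff v 𝔓).mpr h) ((over_iff v' 𝔓).mpr h')
  obtain ⟨Q, hQ, hX⟩ := hCOR F A N hN
  have hcont : ∀ 𝔓 : Ideal (Zb F), Cont (χ₀.comp (Subgroup.inclusion
      (inf_le_left : N ⊓ Dec 𝔓 ≤ N))) := by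
    intro 𝔓
    obtain ⟨M, hM, h⟩ := hc
    exact ⟨M, hM, fun σ hσ hσM => h σ hσ.1 hσM⟩
  obtain ⟨χ₁, c1, r1, q1, cc1⟩ := hGL1 F N hN.isOpen ℓ hℓ v₁ 𝔓₁ ho₁
    (χ₀.comp (Subgroup.inclusion (inf_le_left : N ⊓ Dec 𝔓₁ ≤ N))) (hcont 𝔓₁) (insert 𝔓₂ Q) (by
      intro 𝔔 h𝔔
      rcases Finset.mem_insert.mp h𝔔 with rfl | h
      · refine ⟨⟨v₂, ho₂⟩, fun γ _ hT => ?_⟩
        exact hv₂.1 (huniq' _ _ _ ho₂ (hT.over ho₁))
      · obtain ⟨u, hu, huo⟩ := hQ 𝔔 h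
        refine ⟨⟨u, huo⟩, fun γ _ hT => ?_⟩
        exact hv₁ (huniq' _ _ _ huo (hT.over ho₁) ▸ hu))
  obtain ⟨χ₂, c2, r2, q2, cc2⟩ := hGL1 F N hN.isOpen ℓ hℓ v₂ 𝔓₂ ho₂
    (χ₀.comp (Subgroup.inclusion (inf_le_left : N ⊓ Dec 𝔓₂ ≤ N))) (hcont 𝔓₂) (insert 𝔓₁ Q) (by
      intro 𝔔 h𝔔
      rcases Finset.mem_insert.mp h𝔔 with rfl | h
      · refine ⟨⟨v₁, ho₁⟩, fun γ _ hT => ?_⟩
        exact hv₂.1 (huniq' _ _ _ ho₁ (hT.over ho₂)).symm
      · obtain ⟨u, hu, huo⟩ := hQ 𝔔 h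
        refine ⟨⟨u, huo⟩, fun γ _ hT => ?_⟩
        exact hv₂.2 (huniq' _ _ _ huo (hT.over ho₂) ▸ hu))
  obtain ⟨N', hle, hN', htriv, hpow, -⟩ := hX ℓ {χ₁, χ₂} hℓ (by
    intro χ hχ
    rw [Finset.mem_insert, Finset.mem_singleton] at hχ
    rcases hχ with rfl | rfl
    · exact ⟨c1, fun 𝔔 h => q1 𝔔 (Finset.mem_insert_of_mem h), cc1⟩
    · exact ⟨c2, fun 𝔔 h => q2 𝔔 (Finset.mem_insert_of_mem h), cc2⟩)
  have := hN'.normal
  have hsq : ℓ ^ 2 ∣ N'.relIndex N := by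
    refine sq_dvd N N' hℓ χ₁ χ₂ (htriv χ₁ (by simp)) (htriv χ₂ (by simp)) ⟨t₁, ht₁⟩ ⟨t₂, ht₂⟩
      ?_ ?_ ?_ ?_
    · rw [r1 t₁ ht₁ ⟨ht₁, hd₁⟩]
      exact hx₁
    · exact q2 𝔓₁ (Finset.mem_insert_self _ _) t₁ ht₁ hd₁
    · exact q1 𝔓₂ (Finset.mem_insert_self _ _) t₂ ht₂ hd₂
    · rw [r2 t₂ ht₂ ⟨ht₂, hd₂⟩]
      exact hx₂
  exact ⟨N', hle, hN', fun σ => index_lemma N N' hle (finite_of_open hN'.isOpen) hℓ hpow hsq σ⟩

end BKS
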